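import Pool.Agent.ODx.Num
import Pool.Agent.ODn.Loc

set_option autoImplicit false

namespace Pool.Agent.ODy

open Finset Pool.Agent.ODn Pool.Agent.ODx

-- BEGIN exa
private theorem exa_inj {K : Type*} [Field K] {d l : ℕ} (c : Fin (d + 1) → K)
    (h0 : it c 0 l = 0) (h1 : ∀ j ∈ Ico 1 l, it c 0 j ≠ 0) :
    Function.Injective fun j : Fin l => it c 0 (j : ℕ) := by
  have key : ∀ i j : ℕ, i < j → j < l → it c 0 i ≠ it c 0 j := by
    intro i j hij hj he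
    have h2 : it c 0 ((l - j) + i) = 0 := by
      have h3 : it c 0 ((l - j) + i) = (ev c)^[l - j] (it c 0 i) := by
        unfold it
        rw [Function.iterate_add_apply]
      have h4 : it c 0 ((l - j) + j) = (ev c)^[l - j] (it c 0 j) := by
        unfold it
        rw [Function.iterate_add_apply]
      rw [h3, he, ← h4, Nat.sub_add_cancel hj.le, h0]
    exact h1 _ (mem_Ico.2 ⟨by omega, by omega⟩) h2
  intro i j hij
  have hij' : it c 0 (i : ℕ) = it c 0 (j : ℕ) := hij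
  rcases lt_trichotomy (i : ℕ) (j : ℕ) with h | h | h
  · exact absurd hij' (key _ _ h j.2)
  · exact Fin.ext h
  · exact absurd hij'.symm (key _ _ h i.2)

open Classical in
/-- Exact period `l ≤ d + 1`. Proof: for such `c` the points `x j = it c 0 j`, `j < l`, are distinct,
`x 0 = 0`, and `ev c (x j) = x (j+1)`, `ev c (x (l-1)) = 0`: at most `q^(l-1)` tuples, for each of them
`q^(d+1-l)` vectors `c` (`fib` with `k = l`). -/
theorem exa {K : Type*} [Field K] [Fintype K] {d l : ℕ} (hl : 1 ≤ l)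
    (hld : l ≤ d + 1) :
    (univ.filter fun c : Fin (d + 1) → K =>
        it c 0 l = 0 ∧ ∀ j ∈ Ico 1 l, it c 0 j ≠ 0).card * Fintype.card K
      ≤ Fintype.card K ^ (d + 1) := by
  obtain ⟨B, hBe⟩ : ∃ B, B = univ.filter fun c : Fin (d + 1) → K =>
      it c 0 l = 0 ∧ ∀ j ∈ Ico 1 l, it c 0 j ≠ 0 := ⟨_, rfl⟩
  have hBm : ∀ c ∈ B, it c 0 l = 0 ∧ ∀ j ∈ Ico 1 l, it c 0 j ≠ 0 := fun c hc => by
    rw [hBe] at hc
    simp only [Finset.mem_filter, Finset.mem_univ, true_and] at hc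
    exact hc
  rw [← hBe]
  clear hBe
  let _ : DecidableEq K := Classical.decEq K
  obtain ⟨m, rfl⟩ : ∃ m, l = m + 1 := ⟨l - 1, by omega⟩
  set q := Fintype.card K with hq
  let T : Finset (Fin (m + 1) → K) := univ.filter fun x => Function.Injective x ∧ x 0 = 0
  let y : (Fin (m + 1) → K) → Fin (m + 1) → K := fun x j =>
    if h : (j : ℕ) + 1 < m + 1 then x ⟨(j : ℕ) + 1, h⟩ else 0
  let F : (Fin (m + 1) → K) → Finset (Fin (d + 1) → K) := fun x =>
    univ.filter fun c : Fin (d + 1) → K => ∀ j, ev c (x j) = y x j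
  have hT : T.card ≤ q ^ m := by
    have h1 : T.card ≤ (univ : Finset (Fin m → K)).card := by
      refine Finset.card_le_card_of_injOn (fun x j => x j.succ) (fun _ _ => mem_univ _) ?_
      intro x hx x' hx' hxx
      have hx0 : x 0 = 0 := (mem_filter.1 (mem_coe.1 hx)).2.2
      have hx0' : x' 0 = 0 := (mem_filter.1 (mem_coe.1 hx')).2.2
      funext j
      refine Fin.cases ?_ (fun i => ?_) j
      · rw [hx0, hx0']
      · exact congrFun hxx i
    rwa [card_univ, Fintype.card_fun, Fintype.card_fin] at h1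
  have hF : ∀ x ∈ T, (F x).card * q ^ (m + 1) = q ^ (d + 1) := fun x hx =>
    fib hld x (mem_filter.1 hx).2.1 (y x)
  have hB : B.card ≤ ∑ x ∈ T, (F x).card := by
    refine (Finset.card_le_card ?_).trans Finset.card_biUnion_le
    intro c hc
    obtain ⟨h0, h1⟩ := hBm c hc
    rw [mem_biUnion]
    refine ⟨fun j => it c 0 (j : ℕ), mem_filter.2 ⟨mem_univ _, exa_inj c h0 h1, rfl⟩,
      mem_filter.2 ⟨mem_univ _, fun j => ?_⟩⟩
    show ev c (it c 0 (j : ℕ)) = if h : (j : ℕ) + 1 < m + 1 then it c 0 ((j : ℕ) + 1) else 0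
    rw [← it_succ]
    by_cases h : (j : ℕ) + 1 < m + 1
    · rw [dif_pos h]
    · rw [dif_neg h]
      have h2 : (j : ℕ) + 1 = m + 1 := by
        have := j.2
        omega
      rw [h2, h0]
  have hq0 : 0 < q ^ m := by
    have : 0 < q := Fintype.card_pos
    positivity
  refine Nat.le_of_mul_le_mul_right ?_ hq0
  calc B.card * q * q ^ m = B.card * q ^ (m + 1) := by ring
    _ ≤ (∑ x ∈ T, (F x).card) * q ^ (m + 1) := Nat.mul_le_mul_right _ hB
    _ = ∑ x ∈ T, (F x).card * q ^ (m + 1) := Finset.sum_mul _ _ _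
    _ = ∑ x ∈ T, q ^ (d + 1) := Finset.sum_congr rfl hF
    _ = T.card * q ^ (d + 1) := by rw [Finset.sum_const, smul_eq_mul]
    _ ≤ q ^ m * q ^ (d + 1) := Nat.mul_le_mul_right _ hT
    _ = q ^ (d + 1) * q ^ m := mul_comm _ _
-- END exa

-- BEGIN kch2
/-- `k = min (d+1) (Nat.sqrt p)`: `k/p ≤ 1/√p`, `1/k ≤ 1/d + 2/√p`, `1/p ≤ 1/√p`. -/
theorem kch2 {d p : ℕ} (hd : 2 ≤ d) (hp : p.Prime) :
    ∃ k : ℕ, 1 ≤ k ∧ k ≤ d + 1 ∧ (k / p : ℝ) + 1 / k + 1 / p ≤ 1 / d + 4 / Real.sqrt p := by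
  have hp2 : 2 ≤ p := hp.two_le
  have hpR : (2 : ℝ) ≤ p := by exact_mod_cast hp2
  have hp0 : (0 : ℝ) < p := by linarith
  have hs0 : 0 < Real.sqrt p := Real.sqrt_pos.2 hp0
  have hs1 : 1 ≤ Real.sqrt p := by
    rw [Real.one_le_sqrt]
    linarith
  have hss : Real.sqrt p * Real.sqrt p = p := Real.mul_self_sqrt hp0.le
  have hn1 : 1 ≤ Nat.sqrt p := by
    rw [Nat.le_sqrt']
    omega
  have hnle : (Nat.sqrt p : ℝ) ≤ Real.sqrt p := Real.nat_sqrt_le_real_sqrt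
  have hnge : Real.sqrt p ≤ Nat.sqrt p + 1 := Real.real_sqrt_le_nat_sqrt_succ
  have hnpos : (1 : ℝ) ≤ Nat.sqrt p := by exact_mod_cast hn1
  refine ⟨min (d + 1) (Nat.sqrt p), le_min (by omega) hn1, min_le_left _ _, ?_⟩
  set k := min (d + 1) (Nat.sqrt p) with hk
  have hk1 : 1 ≤ k := le_min (by omega) hn1
  have hkR : (1 : ℝ) ≤ k := by exact_mod_cast hk1
  have hks : (k : ℝ) ≤ Real.sqrt p := by
    have : (k : ℝ) ≤ Nat.sqrt p := by exact_mod_cast min_le_right _ _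
    linarith
  have e1 : (k / p : ℝ) ≤ 1 / Real.sqrt p := by
    rw [div_le_div_iff₀ hp0 hs0, one_mul]
    calc (k : ℝ) * Real.sqrt p ≤ Real.sqrt p * Real.sqrt p :=
          mul_le_mul_of_nonneg_right hks hs0.le
      _ = p := hss
  have e2 : (1 / p : ℝ) ≤ 1 / Real.sqrt p := by
    refine one_div_le_one_div_of_le hs0 ?_
    calc Real.sqrt p = Real.sqrt p * 1 := (mul_one _).symm
      _ ≤ Real.sqrt p * Real.sqrt p := mul_le_mul_of_nonneg_left hs1 hs0.le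
      _ = p := hss
  have e3 : (1 / k : ℝ) ≤ 1 / d + 2 / Real.sqrt p := by
    have hd0 : (0 : ℝ) < d := by
      have : 0 < d := by omega
      exact_mod_cast this
    rcases min_choice (d + 1) (Nat.sqrt p) with h | h
    · have h1 : (1 / k : ℝ) ≤ 1 / d := by
        rw [hk, h]
        push_cast
        exact one_div_le_one_div_of_le hd0 (by linarith)
      have h2 : 0 ≤ 2 / Real.sqrt p := by positivity
      linarith
    · have h1 : (1 / k : ℝ) ≤ 2 / Real.sqrt p := by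
        rw [hk, h, div_le_div_iff₀ (by linarith) hs0]
        linarith
      have h2 : 0 ≤ 1 / (d : ℝ) := by positivity
      linarith
  have e4 : 4 / Real.sqrt p = 1 / Real.sqrt p + 2 / Real.sqrt p + 1 / Real.sqrt p := by ring
  rw [e4]
  linarith
-- END kch2

-- BEGIN itp
private theorem itp_log {y a : ℝ} (hy : 1 ≤ y) (ha : 0 < a) :
    Real.log y ^ 7 ≤ (1 / a) ^ 7 * y ^ (7 * a) := by
  have h0 : 0 ≤ Real.log y := Real.log_nonneg hy
  have hy0 : (0 : ℝ) ≤ y := by linarith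
  have h1 : Real.log y ≤ y ^ a / a := Real.log_le_rpow_div hy0 ha
  have h2 : (y ^ a) ^ 7 = y ^ (7 * a) := by
    rw [← Real.rpow_natCast (y ^ a) 7, ← Real.rpow_mul hy0, mul_comm]
    norm_num
  calc Real.log y ^ 7 ≤ (y ^ a / a) ^ 7 := pow_le_pow_left₀ h0 h1 7
    _ = (1 / a) ^ 7 * (y ^ a) ^ 7 := by rw [← mul_pow]; ring
    _ = (1 / a) ^ 7 * y ^ (7 * a) := by rw [h2]

private theorem itp_log1 {y : ℝ} (hy : 1 ≤ y) : Real.log y ^ 7 ≤ 7 ^ 7 * y := by
  have h := itp_log (a := 1 / 7) hy (by norm_num)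
  rw [show (7 * (1 / 7) : ℝ) = 1 by norm_num, Real.rpow_one,
    show (1 / (1 / 7) : ℝ) = 7 by norm_num] at h
  exact h

private theorem itp_log4 {y : ℝ} (hy : 1 ≤ y) : Real.log y ^ 7 ≤ (7 / 4) ^ 7 * y ^ 4 := by
  have h := itp_log (a := 4 / 7) hy (by norm_num)
  rw [show (7 * (4 / 7) : ℝ) = ((4 : ℕ) : ℝ) by norm_num, Real.rpow_natCast,
    show (1 / (4 / 7) : ℝ) = 7 / 4 by norm_num] at h
  exact h

private theorem itp_fin {x l : ℝ} (hl : 0 < l) (h : x ^ 8 * l ^ 7 ≤ 336 ^ 8) :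
    x ≤ 336 * l ^ (-(7 / 8) : ℝ) := by
  have h1 : 0 ≤ 336 * l ^ (-(7 / 8) : ℝ) := by positivity
  refine le_of_pow_le_pow_left₀ (n := 8) (by norm_num) h1 ?_
  have h2 : (l ^ (-(7 / 8) : ℝ)) ^ 8 * l ^ 7 = 1 := by
    rw [← Real.rpow_natCast (l ^ (-(7 / 8) : ℝ)) 8, ← Real.rpow_mul hl.le,
      ← Real.rpow_natCast l 7, ← Real.rpow_add hl]
    norm_num
  have h3 : 0 < l ^ 7 := pow_pos hl 7
  rw [mul_pow]
  refine le_of_mul_le_mul_right ?_ h3
  calc x ^ 8 * l ^ 7 ≤ 336 ^ 8 := h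
    _ = 336 ^ 8 * ((l ^ (-(7 / 8) : ℝ)) ^ 8 * l ^ 7) := by rw [h2, mul_one]
    _ = 336 ^ 8 * (l ^ (-(7 / 8) : ℝ)) ^ 8 * l ^ 7 := by ring

/-- If `1/d ≤ 4/√p` then `x ≤ 8/√p` and `(log p)^(7/8) ≤ 2 √p` (`Real.log_le_rpow_div` with `4/7`).
Otherwise `x ≤ 2/d`, so `x = x^(1/8) x^(7/8) ≤ (2/d)^(1/8) (24 log d / log p)^(7/8)`, and
`log d ≤ 7 d^(1/7)`. -/
theorem itp : ∃ C : ℝ, 0 < C ∧ ∀ (d p : ℕ) (x : ℝ), 2 ≤ d → 2 ≤ p → 0 ≤ x →
    x ≤ 1 / d + 4 / Real.sqrt p → x ≤ 24 * Real.log d * (1 / Real.log p) →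
    x ≤ C * (Real.log p) ^ (-(7 / 8) : ℝ) := by
  refine ⟨336, by norm_num, fun d p x hd hp hx h1 h2 => ?_⟩
  have hd' : (2 : ℝ) ≤ d := by exact_mod_cast hd
  have hp' : (2 : ℝ) ≤ p := by exact_mod_cast hp
  have hl : 0 < Real.log p := Real.log_pos (by linarith)
  have hld : 0 ≤ Real.log d := Real.log_nonneg (by linarith)
  refine itp_fin hl ?_
  have hs : 0 < Real.sqrt p := Real.sqrt_pos.2 (by linarith)
  rcases le_or_gt (1 / (d : ℝ)) (4 / Real.sqrt p) with h | h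
  · have h3 : x ≤ 8 / Real.sqrt p := by
      have e : (8 : ℝ) / Real.sqrt p = 4 / Real.sqrt p + 4 / Real.sqrt p := by ring
      rw [e]
      linarith
    have h4 : x ^ 8 ≤ 8 ^ 8 / (p : ℝ) ^ 4 := by
      have h5 := pow_le_pow_left₀ hx h3 8
      rw [div_pow] at h5
      have h6 : Real.sqrt p ^ 8 = (p : ℝ) ^ 4 := by
        calc Real.sqrt p ^ 8 = (Real.sqrt p ^ 2) ^ 4 := by ring
          _ = (p : ℝ) ^ 4 := by rw [Real.sq_sqrt (by linarith)]
      rwa [h6] at h5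
    have h7 := itp_log4 (y := (p : ℝ)) (by linarith)
    have hp4 : (0 : ℝ) < (p : ℝ) ^ 4 := by positivity
    calc x ^ 8 * Real.log p ^ 7 ≤ 8 ^ 8 / (p : ℝ) ^ 4 * ((7 / 4) ^ 7 * (p : ℝ) ^ 4) :=
          mul_le_mul h4 h7 (by positivity) (by positivity)
      _ = 8 ^ 8 * (7 / 4) ^ 7 := by field_simp
      _ ≤ 336 ^ 8 := by norm_num
  · have h3 : x ≤ 2 / d := by
      have e : (2 : ℝ) / d = 1 / d + 1 / d := by ring
      rw [e]
      linarith
    have h4 : x * Real.log p ≤ 24 * Real.log d := by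
      have h5 := mul_le_mul_of_nonneg_right h2 hl.le
      have e : 24 * Real.log d * (1 / Real.log p) * Real.log p = 24 * Real.log d := by
        field_simp
      rwa [e] at h5
    have h5 : (x * Real.log p) ^ 7 ≤ 24 ^ 7 * (7 ^ 7 * d) := by
      refine (pow_le_pow_left₀ (by positivity) h4 7).trans ?_
      rw [mul_pow]
      exact mul_le_mul_of_nonneg_left (itp_log1 (by linarith)) (by norm_num)
    have hd0 : (0 : ℝ) < d := by linarith
    have h6 : x ^ 8 * Real.log p ^ 7 = x * (x * Real.log p) ^ 7 := by ring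
    have h7 : (2 : ℝ) / d * (24 ^ 7 * (7 ^ 7 * d)) = 2 * (24 ^ 7 * 7 ^ 7) := by
      field_simp
    rw [h6]
    refine (mul_le_mul h3 h5 (by positivity) (by positivity)).trans ?_
    rw [h7]
    norm_num
-- END itp

-- BEGIN tele2
private theorem tele2_aux (N : ℕ) :
    0 ≤ (∏ p ∈ (range N).filter Nat.Prime, (1 + 3 / (4 * (p : ℝ)))) ∧
    0 ≤ (∏ p ∈ (range N).filter Nat.Prime, (1 - 1 / (p : ℝ))) ∧
    ∑ P ∈ (range N).filter Nat.Prime, 1 / (P : ℝ) *
        ((∏ p ∈ (range P).filter Nat.Prime, (1 + 3 / (4 * (p : ℝ))))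
          * (∏ p ∈ (range P).filter Nat.Prime, (1 - 1 / (p : ℝ))) ^ (7 / 8 : ℝ)) +
      8 * ((∏ p ∈ (range N).filter Nat.Prime, (1 + 3 / (4 * (p : ℝ))))
        * (∏ p ∈ (range N).filter Nat.Prime, (1 - 1 / (p : ℝ))) ^ (7 / 8 : ℝ)) ≤ 8 := by
  induction N with
  | zero => simp
  | succ N ih =>
    obtain ⟨hA0, hB0, h1⟩ := ih
    rw [Finset.range_add_one, Finset.filter_insert]
    by_cases hp : Nat.Prime N
    · rw [if_pos hp]
      have hn : N ∉ (range N).filter Nat.Prime := fun h => by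
        simpa using (Finset.mem_filter.1 h).1
      rw [Finset.prod_insert hn, Finset.prod_insert hn, Finset.sum_insert hn]
      have hN : (2 : ℝ) ≤ N := by exact_mod_cast hp.two_le
      obtain ⟨r, hr⟩ : ∃ r : ℝ, r = 1 / (N : ℝ) := ⟨_, rfl⟩
      have hr0 : 0 < r := by rw [hr]; positivity
      have hr1 : r ≤ 1 / 2 := by rw [hr]; exact one_div_le_one_div_of_le (by norm_num) hN
      have e1 : 3 / (4 * (N : ℝ)) = 3 / 4 * r := by rw [hr]; ring
      rw [e1, ← hr]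
      obtain ⟨A, hA⟩ : ∃ A : ℝ, A = ∏ p ∈ (range N).filter Nat.Prime, (1 + 3 / (4 * (p : ℝ))) :=
        ⟨_, rfl⟩
      obtain ⟨B, hB⟩ : ∃ B : ℝ, B = ∏ p ∈ (range N).filter Nat.Prime, (1 - 1 / (p : ℝ)) := ⟨_, rfl⟩
      rw [← hA] at hA0
      rw [← hB] at hB0
      rw [← hA, ← hB] at h1 ⊢
      have hT : 0 ≤ A * B ^ (7 / 8 : ℝ) := mul_nonneg hA0 (Real.rpow_nonneg hB0 _)
      have hber : (1 - r) ^ (7 / 8 : ℝ) ≤ 1 - 7 / 8 * r := by
        have h := rpow_one_add_le_one_add_mul_self (s := -r) (by linarith)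
          (p := 7 / 8) (by norm_num) (by norm_num)
        have e : (1 : ℝ) + -r = 1 - r := by ring
        rw [e] at h
        linarith
      have e2 : (1 + 3 / 4 * r) * A * ((1 - r) * B) ^ (7 / 8 : ℝ) =
          (1 + 3 / 4 * r) * (1 - r) ^ (7 / 8 : ℝ) * (A * B ^ (7 / 8 : ℝ)) := by
        rw [Real.mul_rpow (by linarith) hB0]
        ring
      rw [e2]
      refine ⟨mul_nonneg (by linarith) hA0, mul_nonneg (by linarith) hB0, ?_⟩
      have h2 : (1 + 3 / 4 * r) * (1 - r) ^ (7 / 8 : ℝ) ≤ 1 - r / 8 := by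
        have h3 := mul_le_mul_of_nonneg_left hber (show 0 ≤ 1 + 3 / 4 * r by linarith)
        nlinarith
      have h3 : (1 + 3 / 4 * r) * (1 - r) ^ (7 / 8 : ℝ) * (A * B ^ (7 / 8 : ℝ)) ≤
          (1 - r / 8) * (A * B ^ (7 / 8 : ℝ)) := mul_le_mul_of_nonneg_right h2 hT
      linarith
    · rw [if_neg hp]
      exact ⟨hA0, hB0, h1⟩

/-- As `ODx.tele`: with `R N = ∏_{p < N} (1 + 3/(4p)) · (∏_{p < N} (1 - 1/p))^(7/8)`,
`(1 - x)^(7/8) ≤ 1 - 7x/8` (`Real.rpow_one_add_le_one_add_mul_self`) gives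
`R (P + 1) ≤ R P (1 - 1/(8P))`; induction on `N` for `sum + 8 R N ≤ 8`. -/
theorem tele2 (N : ℕ) :
    ∑ P ∈ (range N).filter Nat.Prime, 1 / (P : ℝ) *
        ((∏ p ∈ (range P).filter Nat.Prime, (1 + 3 / (4 * (p : ℝ))))
          * (∏ p ∈ (range P).filter Nat.Prime, (1 - 1 / (p : ℝ))) ^ (7 / 8 : ℝ)) ≤ 8 := by
  obtain ⟨hA0, hB0, h1⟩ := tele2_aux N
  have := mul_nonneg hA0 (Real.rpow_nonneg hB0 (7 / 8 : ℝ))
  linarith
-- END tele2

-- BEGIN mer2
/-- As `ODx.mer` with `tele2`: `(log P)^(-7/8) ≤ (C ∏_{p < P} (1 - 1/p))^(7/8)`. -/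
theorem mer2 : ∃ C : ℝ, 0 < C ∧ ∀ N : ℕ,
    ∑ P ∈ (range N).filter Nat.Prime, 1 / (P : ℝ) * ((Real.log P) ^ (-(7 / 8) : ℝ) *
        ∏ p ∈ (range P).filter Nat.Prime, (1 + 3 / (4 * (p : ℝ)))) ≤ C := by
  obtain ⟨C, hC, hM⟩ := Pool.Agent.MT.mertens_prod
  refine ⟨C ^ (7 / 8 : ℝ) * 8, by positivity, fun N => ?_⟩
  have key : ∀ P ∈ (range N).filter Nat.Prime,
      1 / (P : ℝ) * ((Real.log P) ^ (-(7 / 8) : ℝ) *
        ∏ p ∈ (range P).filter Nat.Prime, (1 + 3 / (4 * (p : ℝ)))) ≤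
      C ^ (7 / 8 : ℝ) * (1 / (P : ℝ) *
        ((∏ p ∈ (range P).filter Nat.Prime, (1 + 3 / (4 * (p : ℝ)))) *
        (∏ p ∈ (range P).filter Nat.Prime, (1 - 1 / (p : ℝ))) ^ (7 / 8 : ℝ))) := by
    intro P hP
    have hPp : P.Prime := (mem_filter.1 hP).2
    have hP0 : (0 : ℝ) < P := by exact_mod_cast hPp.pos
    have hl : 0 < Real.log P := Real.log_pos (by exact_mod_cast hPp.one_lt)
    have hA : 0 ≤ ∏ p ∈ (range P).filter Nat.Prime, (1 + 3 / (4 * (p : ℝ))) :=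
      prod_nonneg fun p _ => by positivity
    have hB : 0 < ∏ p ∈ (range P).filter Nat.Prime, (1 - 1 / (p : ℝ)) := by
      refine prod_pos fun p hp => ?_
      have hp2 : (2 : ℝ) ≤ p := by exact_mod_cast (mem_filter.1 hp).2.two_le
      have hp3 : 1 / (p : ℝ) ≤ 1 / 2 := one_div_le_one_div_of_le (by norm_num) hp2
      linarith
    have h3 := hM P hPp.two_le
    rw [prod_inv_distrib] at h3
    generalize ∏ p ∈ (range P).filter Nat.Prime, (1 - 1 / (p : ℝ)) = B at hB h3 ⊢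
    generalize ∏ p ∈ (range P).filter Nat.Prime, (1 + 3 / (4 * (p : ℝ))) = A at hA ⊢
    have h4 : (Real.log P)⁻¹ ≤ C * B := by
      rw [← one_div, div_le_iff₀ hl]
      have h5 : B⁻¹ * B ≤ C * Real.log P * B := mul_le_mul_of_nonneg_right h3 hB.le
      rw [inv_mul_cancel₀ hB.ne'] at h5
      linarith
    have h7 : (Real.log P) ^ (-(7 / 8) : ℝ) ≤ C ^ (7 / 8 : ℝ) * B ^ (7 / 8 : ℝ) := by
      rw [Real.rpow_neg hl.le, ← Real.inv_rpow hl.le, ← Real.mul_rpow hC.le hB.le]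
      exact Real.rpow_le_rpow (inv_nonneg.2 hl.le) h4 (by norm_num)
    calc 1 / (P : ℝ) * ((Real.log P) ^ (-(7 / 8) : ℝ) * A)
        ≤ 1 / (P : ℝ) * (C ^ (7 / 8 : ℝ) * B ^ (7 / 8 : ℝ) * A) :=
          mul_le_mul_of_nonneg_left (mul_le_mul_of_nonneg_right h7 hA) (by positivity)
      _ = C ^ (7 / 8 : ℝ) * (1 / (P : ℝ) * (A * B ^ (7 / 8 : ℝ))) := by ring
  refine (sum_le_sum key).trans ?_
  rw [← mul_sum]
  exact mul_le_mul_of_nonneg_left (tele2 N) (by positivity)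
-- END mer2

-- BEGIN avgp2
/-- As `ODx.avgp` with `mer2`. -/
theorem avgp2 : ∃ C : ℝ, 0 < C ∧ ∀ (K : ℝ) (Q : ℕ) (I : Finset ℕ) (h : ℕ → ℕ → ℝ), 0 ≤ K →
    (∀ n ∈ I, ∀ p, p.Prime → 0 ≤ h n p ∧ h n p ≤ 3 / 4) →
    (∀ p, p.Prime → p ≤ Q →
      ∑ n ∈ I, h n p ≤ I.card * (K * (Real.log p) ^ (-(7 / 8) : ℝ))) →
    ∑ n ∈ I, ∑ m ∈ sf Q, ∏ p ∈ m.primeFactors, h n p / p ≤ I.card * (1 + C * K) := by
  obtain ⟨C, hC, hmer⟩ := mer2
  refine ⟨C, hC, ?_⟩
  intro K Q I h hK hh hs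
  set R : ℕ → ℝ := fun P => ∏ p ∈ (range P).filter Nat.Prime, (1 + 3 / (4 * (p : ℝ))) with hR
  have hR0 : ∀ P, 0 ≤ R P := fun P => Finset.prod_nonneg fun p _ => by positivity
  have h1 : ∀ n ∈ I, ∑ m ∈ sf Q, ∏ p ∈ m.primeFactors, h n p / p ≤
      1 + ∑ P ∈ (range (Q + 1)).filter Nat.Prime, h n P / P * R P := by
    intro n hn
    refine (sfp Q (fun p => h n p / p) fun p hp => ?_).trans
      (ord (Q + 1) (fun p => h n p / p) fun p hp => ⟨?_, ?_⟩)
    · exact div_nonneg (hh n hn p hp).1 (Nat.cast_nonneg p)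
    · exact div_nonneg (hh n hn p hp).1 (Nat.cast_nonneg p)
    · have hp0 : (0 : ℝ) < p := by exact_mod_cast hp.pos
      have h2 := (hh n hn p hp).2
      show h n p / (p : ℝ) ≤ 3 / (4 * (p : ℝ))
      have h3 : 3 / (4 * (p : ℝ)) = 3 / 4 / p := by
        field_simp
      rw [h3]
      exact div_le_div_of_nonneg_right h2 hp0.le
  have hI : (0 : ℝ) ≤ I.card := Nat.cast_nonneg _
  calc ∑ n ∈ I, ∑ m ∈ sf Q, ∏ p ∈ m.primeFactors, h n p / p
      ≤ ∑ n ∈ I, (1 + ∑ P ∈ (range (Q + 1)).filter Nat.Prime, h n P / P * R P) :=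
        Finset.sum_le_sum h1
    _ = I.card + ∑ P ∈ (range (Q + 1)).filter Nat.Prime, (∑ n ∈ I, h n P) * (1 / P * R P) := by
        rw [Finset.sum_add_distrib, Finset.sum_const, nsmul_eq_mul, mul_one, Finset.sum_comm]
        congr 1
        refine Finset.sum_congr rfl fun P _ => ?_
        rw [Finset.sum_mul]
        refine Finset.sum_congr rfl fun n _ => ?_
        ring
    _ ≤ I.card + ∑ P ∈ (range (Q + 1)).filter Nat.Prime,
          (I.card * (K * ((Real.log P) ^ (-(7 / 8) : ℝ)))) * (1 / P * R P) := by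
        refine add_le_add le_rfl (Finset.sum_le_sum fun P hP => ?_)
        rw [Finset.mem_filter, Finset.mem_range] at hP
        refine mul_le_mul_of_nonneg_right (hs P hP.2 (by omega)) ?_
        have := hR0 P
        positivity
    _ = I.card + I.card * K * ∑ P ∈ (range (Q + 1)).filter Nat.Prime,
          1 / (P : ℝ) * ((Real.log P) ^ (-(7 / 8) : ℝ) * R P) := by
        rw [Finset.mul_sum]
        congr 1
        refine Finset.sum_congr rfl fun P _ => ?_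
        ring
    _ ≤ I.card + I.card * K * C := by
        refine add_le_add le_rfl (mul_le_mul_of_nonneg_left (hmer (Q + 1)) (by positivity))
    _ = I.card * (1 + C * K) := by ring
-- END avgp2

end Pool.Agent.ODy
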