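import Pool.Agent.ODn.Siv

set_option autoImplicit false

namespace Pool.Agent.ODy

open Finset Pool.Agent.ODn

-- BEGIN e3
/-- `(1 + x)^d ≤ exp (d x) ≤ exp 1 < 3`, `x = 1/(d+1)` (`Real.add_one_le_exp`, `Real.exp_one_lt_d9`). -/
theorem e3 (d : ℕ) : (1 + 1 / ((d : ℝ) + 1)) ^ d ≤ 3 := by
  have h0 : (0 : ℝ) ≤ (d : ℝ) := Nat.cast_nonneg d
  have h1 : (0 : ℝ) < (d : ℝ) + 1 := by linarith
  have h2 : 0 ≤ 1 / ((d : ℝ) + 1) := by positivity
  have h3 : 1 + 1 / ((d : ℝ) + 1) ≤ Real.exp (1 / ((d : ℝ) + 1)) := by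
    have := Real.add_one_le_exp (1 / ((d : ℝ) + 1))
    linarith
  calc (1 + 1 / ((d : ℝ) + 1)) ^ d ≤ Real.exp (1 / ((d : ℝ) + 1)) ^ d :=
        pow_le_pow_left₀ (by linarith) h3 d
    _ = Real.exp (d * (1 / ((d : ℝ) + 1))) := (Real.exp_nat_mul _ d).symm
    _ ≤ Real.exp 1 := by
        refine Real.exp_le_exp.2 ?_
        rw [mul_one_div, div_le_one h1]
        linarith
    _ ≤ 3 := by
        have := Real.exp_one_lt_d9
        linarith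
-- END e3

-- BEGIN box2
private theorem box2_class {d m H : ℕ} (hm : 0 < m) (hmH : (d + 1) * m ≤ 2 * H + 1)
    (r : Fin (d + 1) → ℤ) :
    |(((box (d + 1) H).filter fun c => ∀ i, c i ≡ r i [ZMOD m]).card : ℝ)
        - ((2 * H + 1 : ℝ) / m) ^ (d + 1)|
      ≤ (d + 1) * ((1 + 1 / ((d : ℝ) + 1)) * ((2 * H + 1 : ℝ) / m)) ^ d := by
  have hm0 : (0 : ℝ) < m := by exact_mod_cast hm
  have hd0 : (0 : ℝ) < (d : ℝ) + 1 := by positivity
  have hq : (d : ℝ) + 1 ≤ (2 * H + 1 : ℝ) / m := by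
    rw [le_div_iff₀ hm0]
    exact_mod_cast hmH
  have hq1 : 1 ≤ (1 / ((d : ℝ) + 1)) * ((2 * H + 1 : ℝ) / m) := by
    rw [one_div, inv_mul_eq_div, le_div_iff₀ hd0, one_mul]
    exact hq
  have hq0 : 0 ≤ (2 * H + 1 : ℝ) / m := by positivity
  have hK : (1 + 1 / ((d : ℝ) + 1)) * ((2 * H + 1 : ℝ) / m) =
      (2 * H + 1 : ℝ) / m + (1 / ((d : ℝ) + 1)) * ((2 * H + 1 : ℝ) / m) := by ring
  have h1 : ((box (d + 1) H).filter fun c => ∀ i, c i ≡ r i [ZMOD m])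
      = Fintype.piFinset fun i => (Icc (-(H : ℤ)) H).filter fun x => x ≡ r i [ZMOD m] := by
    ext c
    unfold ODn.box
    simp only [mem_filter, Fintype.mem_piFinset]
    constructor
    · rintro ⟨h2, h3⟩ i
      exact ⟨h2 i, h3 i⟩
    · intro h2
      exact ⟨fun i => (h2 i).1, fun i => (h2 i).2⟩
  have h2 : ((2 * H + 1 : ℝ) / m) ^ (d + 1) = ∏ _i : Fin (d + 1), ((2 * H + 1 : ℝ) / m) := by
    rw [Finset.prod_const, Finset.card_univ, Fintype.card_fin]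
  rw [h1, Fintype.card_piFinset, Nat.cast_prod, h2]
  refine prod_diff _ _ _ (by linarith) (fun i => ⟨by positivity, ?_⟩)
    (fun i => ⟨by positivity, by linarith⟩) (fun i => cnt H m hm (r i))
  have h3 := (abs_le.1 (cnt H m hm (r i))).2
  linarith

/-- Copy of `ODn.box_sum` (with its private `box_sum_class`), with
`K = (1 + 1/(d+1)) (2H+1)/m` in `prod_diff` (`1 ≤ (2H+1)/((d+1) m)`) and `e3`. -/
theorem box2 {d m H : ℕ} (hm : 0 < m) (hmH : (d + 1) * m ≤ 2 * H + 1) (φ : (Fin (d + 1) → ℤ) → ℝ)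
    (hφ : Per m φ) (B : ℝ) (hB : ∀ c, |φ c| ≤ B) :
    |∑ c ∈ box (d + 1) H, φ c - ((2 * H + 1 : ℝ) / m) ^ (d + 1) * sm m φ|
      ≤ B * (3 * (d + 1) * m * (2 * H + 1) ^ d) := by
  classical
  have hm0 : (0 : ℝ) < m := by exact_mod_cast hm
  have hmz : (0 : ℤ) < m := by exact_mod_cast hm
  have hB0 : 0 ≤ B := (abs_nonneg _).trans (hB fun _ => 0)
  have hmap : ∀ c ∈ box (d + 1) H, (fun i => c i % (m : ℤ)) ∈ rs (d + 1) m := by
    intro c _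
    unfold rs
    rw [Fintype.mem_piFinset]
    intro i
    exact mem_Ico.2 ⟨Int.emod_nonneg _ hmz.ne', Int.emod_lt_of_pos _ hmz⟩
  have h1 : ∑ c ∈ box (d + 1) H, φ c
      = ∑ r ∈ rs (d + 1) m,
        (((box (d + 1) H).filter fun c => ∀ i, c i ≡ r i [ZMOD m]).card : ℝ) * φ r := by
    rw [← Finset.sum_fiberwise_of_maps_to hmap]
    refine Finset.sum_congr rfl fun r hr => ?_
    unfold rs at hr
    rw [Fintype.mem_piFinset] at hr
    have h2 : ((box (d + 1) H).filter fun c => (fun i => c i % (m : ℤ)) = r)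
        = (box (d + 1) H).filter fun c => ∀ i, c i ≡ r i [ZMOD m] := by
      refine Finset.filter_congr fun c _ => ?_
      constructor
      · intro h3 i
        have h4 := congrFun h3 i
        have h5 := mem_Ico.1 (hr i)
        show c i % m = r i % m
        rw [Int.emod_eq_of_lt h5.1 h5.2]
        exact h4
      · intro h3
        funext i
        have h5 := mem_Ico.1 (hr i)
        have h4 : c i % m = r i % m := h3 i
        rw [Int.emod_eq_of_lt h5.1 h5.2] at h4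
        exact h4
    rw [h2, ← nsmul_eq_mul, ← Finset.sum_const]
    refine Finset.sum_congr rfl fun c hc => ?_
    exact hφ c r (mem_filter.1 hc).2
  have h3 : ((rs (d + 1) m).card : ℝ) = (m : ℝ) ^ (d + 1) := by
    unfold rs
    rw [Fintype.card_piFinset, Finset.prod_const, Finset.card_univ, Fintype.card_fin, Int.card_Ico,
      sub_zero, Int.toNat_natCast, Nat.cast_pow]
  rw [h1]
  unfold sm
  rw [Finset.mul_sum, ← Finset.sum_sub_distrib]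
  refine (Finset.abs_sum_le_sum_abs _ _).trans ?_
  have h4 : ∀ r ∈ rs (d + 1) m,
      |(((box (d + 1) H).filter fun c => ∀ i, c i ≡ r i [ZMOD m]).card : ℝ) * φ r
        - ((2 * H + 1 : ℝ) / m) ^ (d + 1) * φ r|
      ≤ ((d + 1) * ((1 + 1 / ((d : ℝ) + 1)) * ((2 * H + 1 : ℝ) / m)) ^ d) * B := by
    intro r _
    rw [← sub_mul, abs_mul]
    exact mul_le_mul (box2_class hm hmH r) (hB r) (abs_nonneg _) (by positivity)
  refine (Finset.sum_le_sum h4).trans ?_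
  rw [Finset.sum_const, nsmul_eq_mul, h3]
  have h5 : (m : ℝ) ^ (d + 1) *
      (((d + 1) * ((1 + 1 / ((d : ℝ) + 1)) * ((2 * H + 1 : ℝ) / m)) ^ d) * B)
      = (1 + 1 / ((d : ℝ) + 1)) ^ d * (B * ((d + 1) * m * (2 * H + 1) ^ d)) := by
    rw [mul_pow, div_pow, pow_succ (m : ℝ) d]
    field_simp
  rw [h5]
  have h6 : (0 : ℝ) ≤ B * ((d + 1) * m * (2 * H + 1) ^ d) :=
    mul_nonneg hB0 (by positivity)
  refine (mul_le_mul_of_nonneg_right (e3 d) h6).trans (le_of_eq ?_)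
  ring
-- END box2

-- BEGIN second2
private theorem second2_mem {Q m : ℕ} (h : m ∈ sf Q) : 1 ≤ m ∧ m ≤ Q ∧ Squarefree m := by
  unfold sf at h
  rw [mem_filter, mem_Icc] at h
  exact ⟨h.1.1, h.1.2, h.2⟩

private theorem second2_pair {d n Q H : ℕ} (hd : 2 ≤ d) (hn : 1 ≤ n) (hQ : 3 * (d + 1) * Q ^ 8 ≤ 2 * H + 1)
    (α : ℤ) {m m' : ℕ} (hm : m ∈ sf Q) (hm' : m' ∈ sf Q) :
    ∑ c ∈ box (d + 1) H, OM d n α m c * OM d n α m' c
      ≤ (if m = m' then (2 * H + 1 : ℝ) ^ (d + 1) * HM d n α m else 0)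
        + (Q : ℝ) ^ 6 * (3 * (d + 1) * (2 * H + 1) ^ d) := by
  obtain ⟨h1, h2, h3⟩ := second2_mem hm
  obtain ⟨h1', h2', h3'⟩ := second2_mem hm'
  have hQ1 : 1 ≤ Q := le_trans h1 h2
  have hL0 : 0 < m.lcm m' := Nat.lcm_pos h1 h1'
  have hLle : m.lcm m' ≤ Q ^ 2 := by
    calc m.lcm m' ≤ m * m' := Nat.le_of_dvd (Nat.mul_pos h1 h1') (Nat.lcm_dvd_mul m m')
      _ ≤ Q * Q := Nat.mul_le_mul h2 h2'
      _ = Q ^ 2 := by ring
  have hLH : (d + 1) * m.lcm m' ≤ 2 * H + 1 := by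
    have hQ8 : Q ^ 2 ≤ Q ^ 8 := Nat.pow_le_pow_right hQ1 (by norm_num)
    calc (d + 1) * m.lcm m' ≤ (d + 1) * Q ^ 8 := Nat.mul_le_mul_left _ (hLle.trans hQ8)
      _ ≤ 3 * ((d + 1) * Q ^ 8) := by omega
      _ = 3 * (d + 1) * Q ^ 8 := by ring
      _ ≤ 2 * H + 1 := hQ
  have hmQ : (m : ℝ) ≤ Q := by exact_mod_cast h2
  have hmQ' : (m' : ℝ) ≤ Q := by exact_mod_cast h2'
  have hQr : (1 : ℝ) ≤ Q := by exact_mod_cast hQ1
  obtain ⟨hper, hsm⟩ := OM_orth hd hn h3 h3' α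
  have hB : ∀ c : Fin (d + 1) → ℤ, |OM d n α m c * OM d n α m' c| ≤ (Q : ℝ) ^ 4 := by
    intro c
    rw [abs_mul]
    have ha := OM_bd hd hn h1 α c
    have hb := OM_bd hd hn h1' α c
    have ha' : |OM d n α m c| ≤ (Q : ℝ) ^ 2 :=
      le_trans ha (pow_le_pow_left₀ (Nat.cast_nonneg m) hmQ 2)
    have hb' : |OM d n α m' c| ≤ (Q : ℝ) ^ 2 :=
      le_trans hb (pow_le_pow_left₀ (Nat.cast_nonneg m') hmQ' 2)
    calc |OM d n α m c| * |OM d n α m' c| ≤ (Q : ℝ) ^ 2 * (Q : ℝ) ^ 2 :=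
          mul_le_mul ha' hb' (abs_nonneg _) (by positivity)
      _ = (Q : ℝ) ^ 4 := by ring
  have hbs := box2 hL0 hLH (fun c => OM d n α m c * OM d n α m' c) hper _ hB
  rw [hsm] at hbs
  have hup := (abs_sub_le_iff.1 hbs).1
  have hLr : ((m.lcm m' : ℕ) : ℝ) ≤ (Q : ℝ) ^ 2 := by exact_mod_cast hLle
  have herr : (Q : ℝ) ^ 4 * (3 * (d + 1) * ((m.lcm m' : ℕ) : ℝ) * (2 * H + 1) ^ d)
      ≤ (Q : ℝ) ^ 6 * (3 * (d + 1) * (2 * H + 1) ^ d) := by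
    have hX : (0 : ℝ) ≤ (Q : ℝ) ^ 4 * (3 * (d + 1) * (2 * H + 1) ^ d) := by positivity
    calc (Q : ℝ) ^ 4 * (3 * (d + 1) * ((m.lcm m' : ℕ) : ℝ) * (2 * H + 1) ^ d)
        = ((m.lcm m' : ℕ) : ℝ) * ((Q : ℝ) ^ 4 * (3 * (d + 1) * (2 * H + 1) ^ d)) := by ring
      _ ≤ (Q : ℝ) ^ 2 * ((Q : ℝ) ^ 4 * (3 * (d + 1) * (2 * H + 1) ^ d)) :=
          mul_le_mul_of_nonneg_right hLr hX
      _ = (Q : ℝ) ^ 6 * (3 * (d + 1) * (2 * H + 1) ^ d) := by ring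
  have hmain : ((2 * H + 1 : ℝ) / ((m.lcm m' : ℕ) : ℝ)) ^ (d + 1)
        * (if m = m' then HM d n α m * (m : ℝ) ^ (d + 1) else 0)
      = (if m = m' then (2 * H + 1 : ℝ) ^ (d + 1) * HM d n α m else 0) := by
    by_cases hmm : m = m'
    · subst hmm
      have hm0 : (m : ℝ) ≠ 0 := by
        have : (0 : ℝ) < m := by exact_mod_cast h1
        exact this.ne'
      rw [if_pos rfl, if_pos rfl, Nat.lcm_self, div_pow]
      field_simp
    · rw [if_neg hmm, if_neg hmm, mul_zero]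
  rw [hmain] at hup
  linarith

/-- Copy of `ODn.second` (with its private `second_mem`, `second_pair`), `box2` in place of `box_sum`;
the total error is `Q^2 · Q^4 · 3(d+1) Q^2 (2H+1)^d ≤ (2H+1)^(d+1)`. -/
theorem second2 {d n Q H : ℕ} (hd : 2 ≤ d) (hn : 1 ≤ n) (hQ : 3 * (d + 1) * Q ^ 8 ≤ 2 * H + 1)
    (α : ℤ) :
    ∑ c ∈ box (d + 1) H, (∑ m ∈ sf Q, OM d n α m c) ^ 2
      ≤ (2 * H + 1 : ℝ) ^ (d + 1) * ∑ m ∈ sf Q, HM d n α m + (2 * H + 1 : ℝ) ^ (d + 1) := by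
  have hexp : ∑ c ∈ box (d + 1) H, (∑ m ∈ sf Q, OM d n α m c) ^ 2
      = ∑ m ∈ sf Q, ∑ m' ∈ sf Q, ∑ c ∈ box (d + 1) H, OM d n α m c * OM d n α m' c := by
    have h1 : ∀ c ∈ box (d + 1) H, (∑ m ∈ sf Q, OM d n α m c) ^ 2
        = ∑ m ∈ sf Q, ∑ m' ∈ sf Q, OM d n α m c * OM d n α m' c := by
      intro c _
      rw [sq, Finset.sum_mul_sum]
    rw [Finset.sum_congr rfl h1, Finset.sum_comm]
    refine Finset.sum_congr rfl fun m _ => ?_
    rw [Finset.sum_comm]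
  have hcard : ((sf Q).card : ℝ) ≤ Q := by
    have h1 : (sf Q).card ≤ Q := by
      calc (sf Q).card ≤ (Icc 1 Q).card := Finset.card_filter_le _ _
        _ = Q := by rw [Nat.card_Icc]; omega
    exact_mod_cast h1
  have hE0 : (0 : ℝ) ≤ (Q : ℝ) ^ 6 * (3 * (d + 1) * (2 * H + 1) ^ d) := by positivity
  calc ∑ c ∈ box (d + 1) H, (∑ m ∈ sf Q, OM d n α m c) ^ 2
      = ∑ m ∈ sf Q, ∑ m' ∈ sf Q, ∑ c ∈ box (d + 1) H, OM d n α m c * OM d n α m' c := hexp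
    _ ≤ ∑ m ∈ sf Q, ∑ m' ∈ sf Q,
          ((if m = m' then (2 * H + 1 : ℝ) ^ (d + 1) * HM d n α m else 0)
            + (Q : ℝ) ^ 6 * (3 * (d + 1) * (2 * H + 1) ^ d)) :=
        Finset.sum_le_sum fun m hm => Finset.sum_le_sum fun m' hm' =>
          second2_pair hd hn hQ α hm hm'
    _ = ∑ m ∈ sf Q, ((2 * H + 1 : ℝ) ^ (d + 1) * HM d n α m
          + (sf Q).card * ((Q : ℝ) ^ 6 * (3 * (d + 1) * (2 * H + 1) ^ d))) := by
        refine Finset.sum_congr rfl fun m hm => ?_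
        rw [Finset.sum_add_distrib, Finset.sum_const, nsmul_eq_mul, Finset.sum_ite_eq, if_pos hm]
    _ = (2 * H + 1 : ℝ) ^ (d + 1) * ∑ m ∈ sf Q, HM d n α m
          + ((sf Q).card * (sf Q).card) * ((Q : ℝ) ^ 6 * (3 * (d + 1) * (2 * H + 1) ^ d)) := by
        rw [Finset.sum_add_distrib, Finset.sum_const, nsmul_eq_mul, ← Finset.mul_sum]
        ring
    _ ≤ (2 * H + 1 : ℝ) ^ (d + 1) * ∑ m ∈ sf Q, HM d n α m
          + ((Q : ℝ) * Q) * ((Q : ℝ) ^ 6 * (3 * (d + 1) * (2 * H + 1) ^ d)) := by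
        have h2 : ((sf Q).card : ℝ) * (sf Q).card ≤ (Q : ℝ) * Q :=
          mul_le_mul hcard hcard (Nat.cast_nonneg _) (Nat.cast_nonneg _)
        have h3 := mul_le_mul_of_nonneg_right h2 hE0
        linarith
    _ = (2 * H + 1 : ℝ) ^ (d + 1) * ∑ m ∈ sf Q, HM d n α m
          + (Q : ℝ) ^ 8 * (3 * (d + 1) * (2 * H + 1) ^ d) := by ring
    _ ≤ (2 * H + 1 : ℝ) ^ (d + 1) * ∑ m ∈ sf Q, HM d n α m + (2 * H + 1 : ℝ) ^ (d + 1) := by
        have h4 : (3 : ℝ) * (d + 1) * (Q : ℝ) ^ 8 ≤ 2 * H + 1 := by exact_mod_cast hQ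
        have h5 := mul_le_mul_of_nonneg_right h4
          (show (0 : ℝ) ≤ (2 * H + 1 : ℝ) ^ d by positivity)
        have h6 : (Q : ℝ) ^ 8 * (3 * (d + 1) * (2 * H + 1) ^ d)
            = 3 * (d + 1) * (Q : ℝ) ^ 8 * (2 * H + 1 : ℝ) ^ d := by ring
        rw [h6, pow_succ (2 * H + 1 : ℝ) d]
        linarith
-- END second2

-- BEGIN sieve2
open Classical in
/-- Copy of `ODn.sieve` with `second2`: `|A| S² ≤ (2H+1)^(d+1) (S + 1)`, `S ≥ 1`. -/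
theorem sieve2 {d n Q H : ℕ} (hd : 2 ≤ d) (hn : 1 ≤ n) (hQ1 : 1 ≤ Q)
    (hQ : 3 * (d + 1) * Q ^ 8 ≤ 2 * H + 1) (α : ℤ) :
    (((box (d + 1) H).filter fun c => ∀ p : ℕ, p.Prime → p ≤ Q → ¬ (p : ℤ) ∣ it c α n).card : ℝ)
        * ∑ m ∈ sf Q, HM d n α m
      ≤ 2 * (2 * H + 1 : ℝ) ^ (d + 1) := by
  set A := (box (d + 1) H).filter fun c => ∀ p : ℕ, p.Prime → p ≤ Q → ¬ (p : ℤ) ∣ it c α n
    with hA
  set S : ℝ := ∑ m ∈ sf Q, HM d n α m with hS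
  -- each HM is nonnegative
  have hHM : ∀ m ∈ sf Q, 0 ≤ HM d n α m := by
    intro m _
    refine Finset.prod_nonneg fun p hp => ?_
    have hpp : p.Prime := Nat.prime_of_mem_primeFactors hp
    have h1 := (hp_bd hd hn hpp α).1
    have h2 : (0 : ℝ) ≤ 1 / (3 * (p : ℝ)) := by positivity
    linarith
  have h1mem : 1 ∈ sf Q := by
    simp [sf, hQ1]
  have hS1 : 1 ≤ S := by
    have h := Finset.single_le_sum hHM h1mem
    have h1 : HM d n α 1 = 1 := by simp [HM]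
    rw [h1] at h
    exact h
  -- on the sifted set the inner sum is S
  have hin : ∀ c ∈ A, ∑ m ∈ sf Q, OM d n α m c = S := by
    intro c hc
    rw [hA, Finset.mem_filter] at hc
    refine Finset.sum_congr rfl fun m hm => ?_
    refine Finset.prod_congr rfl fun p hp => ?_
    have hpp : p.Prime := Nat.prime_of_mem_primeFactors hp
    have hmI : m ∈ Icc 1 Q := (Finset.mem_filter.1 hm).1
    have hmQ : m ≤ Q := (Finset.mem_Icc.1 hmI).2
    have hple : p ≤ Q := le_trans (Nat.le_of_mem_primeFactors hp) hmQ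
    have := hc.2 p hpp hple
    simp [om, this]
  have hsub : A ⊆ box (d + 1) H := Finset.filter_subset _ _
  have hlow : (A.card : ℝ) * S ^ 2 ≤ ∑ c ∈ box (d + 1) H, (∑ m ∈ sf Q, OM d n α m c) ^ 2 := by
    calc (A.card : ℝ) * S ^ 2 = ∑ c ∈ A, (∑ m ∈ sf Q, OM d n α m c) ^ 2 := by
          rw [Finset.sum_congr rfl (fun c hc => by rw [hin c hc]), Finset.sum_const, nsmul_eq_mul]
      _ ≤ _ := Finset.sum_le_sum_of_subset_of_nonneg hsub fun c _ _ => sq_nonneg _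
  have hsec := second2 (d := d) (n := n) (Q := Q) (H := H) hd hn hQ α
  rw [← hS] at hsec
  have hY : (0 : ℝ) ≤ (2 * H + 1 : ℝ) ^ (d + 1) := by positivity
  have h4 : (2 * H + 1 : ℝ) ^ (d + 1) ≤ (2 * H + 1 : ℝ) ^ (d + 1) * S :=
    le_mul_of_one_le_right hY hS1
  have hSpos : 0 < S := by linarith
  have h5 : ((A.card : ℝ) * S) * S ≤ (2 * (2 * H + 1 : ℝ) ^ (d + 1)) * S := by
    nlinarith [hlow, hsec, h4]
  exact le_of_mul_le_mul_right h5 hSpos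
-- END sieve2

-- BEGIN qch
/-- `Q` maximal with `3(d+1) Q^8 ≤ 2H+1` (`Q ≥ 1` because `3(d+1) ≤ 2d²+1`). Then
`2H < 3(d+1)(Q+1)^8 ≤ (9/2) d (Q+1)^8`, squared with `d² ≤ H`: `H < (81/16) (Q+1)^16 ≤ (Q+1)^19`. -/
theorem qch {d H : ℕ} (hd : 2 ≤ d) (hH : d ^ 2 ≤ H) :
    ∃ Q : ℕ, 1 ≤ Q ∧ 3 * (d + 1) * Q ^ 8 ≤ 2 * H + 1 ∧ Real.log H ≤ 20 * Real.log (Q + 1) := by
  have hP1 : 3 * (d + 1) * 1 ^ 8 ≤ 2 * H + 1 := by nlinarith
  obtain ⟨Q, hQ1, hQ2, hQ3⟩ : ∃ Q : ℕ, 1 ≤ Q ∧ 3 * (d + 1) * Q ^ 8 ≤ 2 * H + 1 ∧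
      2 * H + 1 < 3 * (d + 1) * (Q + 1) ^ 8 := by
    by_contra hcon
    have hall : ∀ Q : ℕ, 1 ≤ Q → 3 * (d + 1) * Q ^ 8 ≤ 2 * H + 1 := by
      intro Q hQ
      induction Q, hQ using Nat.le_induction with
      | base => exact hP1
      | succ Q hQ ih =>
        by_contra h
        exact hcon ⟨Q, hQ, ih, not_le.1 h⟩
    have h1 := hall (2 * H + 2) (by omega)
    have h2 : 2 * H + 2 ≤ (2 * H + 2) ^ 8 := Nat.le_self_pow (by norm_num) _
    have h3 : 1 * (2 * H + 2) ^ 8 ≤ 3 * (d + 1) * (2 * H + 2) ^ 8 := Nat.mul_le_mul_right _ (by omega)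
    omega
  refine ⟨Q, hQ1, hQ2, ?_⟩
  obtain ⟨T, hT⟩ : ∃ T : ℕ, T = (Q + 1) ^ 8 := ⟨_, rfl⟩
  rw [← hT] at hQ3
  have hT0 : 0 < T := by rw [hT]; positivity
  have h2 : 4 * H < 9 * d * T := by
    have h3 : 2 * T ≤ d * T := Nat.mul_le_mul_right _ hd
    nlinarith
  have h3 : (4 * H) ^ 2 < (9 * d * T) ^ 2 := Nat.pow_lt_pow_left h2 two_ne_zero
  have hH0 : 0 < H := lt_of_lt_of_le (by positivity) hH
  have h4 : 16 * H < 81 * T ^ 2 := by
    have h5 : (16 * H) * H < (81 * T ^ 2) * H := by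
      calc (16 * H) * H = (4 * H) ^ 2 := by ring
        _ < (9 * d * T) ^ 2 := h3
        _ = 81 * T ^ 2 * d ^ 2 := by ring
        _ ≤ 81 * T ^ 2 * H := Nat.mul_le_mul_left _ hH
    exact lt_of_mul_lt_mul_right h5 (Nat.zero_le _)
  have h5 : H ≤ (Q + 1) ^ 20 := by
    have h6 : T ^ 2 * (Q + 1) ^ 4 = (Q + 1) ^ 20 := by rw [hT]; ring
    have h7 : 2 ^ 4 ≤ (Q + 1) ^ 4 := Nat.pow_le_pow_left (by omega) 4
    have h8 : T ^ 2 * 2 ^ 4 ≤ T ^ 2 * (Q + 1) ^ 4 := Nat.mul_le_mul_left _ h7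
    rw [h6] at h8
    omega
  have h6 : Real.log H ≤ Real.log (((Q + 1 : ℕ) : ℝ) ^ 20) := by
    apply Real.log_le_log (by exact_mod_cast hH0)
    exact_mod_cast h5
  rw [Real.log_pow] at h6
  push_cast at h6
  exact h6
-- END qch

-- BEGIN sing
open Classical in
/-- `qch`, `sieve2`, `hp_bd` (`HM m ≥ ∏ 1/(3p)`), `cube`, `harm` (as in `S_low` and `part_a`):
`log H ≤ 40 S³`, `2 · 40^(1/3) ≤ 7`. -/
theorem sing {d n H : ℕ} (hd : 2 ≤ d) (hn : 1 ≤ n) (hH : d ^ 2 ≤ H) (α : ℤ) :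
    (((box (d + 1) H).filter fun c => ∀ p : ℕ, p.Prime → p ^ 8 ≤ 2 * H + 1 →
        ¬ (p : ℤ) ∣ it c α n).card : ℝ)
      ≤ 7 * (Real.log H) ^ (-(1 / 3) : ℝ) * (2 * H + 1) ^ (d + 1) := by
  obtain ⟨Q, hQ1, hQ, hlog⟩ := qch hd hH
  set S : ℝ := ∑ m ∈ sf Q, HM d n α m with hS
  have hS0 : 0 ≤ S := Finset.sum_nonneg fun m _ => Finset.prod_nonneg fun p hp =>
    le_trans (by positivity) (hp_bd hd hn (Nat.prime_of_mem_primeFactors hp) α).1
  have hlow : Real.log H ≤ 40 * S ^ 3 := by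
    have h4 := harm Q
    have h5 := cube Q
    have h6 : (∑ m ∈ sf Q, ∏ p ∈ m.primeFactors, 1 / (3 * (p : ℝ))) ≤ S := by
      refine Finset.sum_le_sum fun m _ => ?_
      unfold HM
      refine Finset.prod_le_prod (fun p _ => by positivity) fun p hp => ?_
      exact (hp_bd hd hn (Nat.prime_of_mem_primeFactors hp) α).1
    have h7 : 0 ≤ ∑ m ∈ sf Q, ∏ p ∈ m.primeFactors, 1 / (3 * (p : ℝ)) :=
      Finset.sum_nonneg fun m _ => Finset.prod_nonneg fun p _ => by positivity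
    have h8 := pow_le_pow_left₀ h7 h6 3
    linarith
  have hsv := sieve2 hd hn hQ1 hQ α
  rw [← hS] at hsv
  have hQ8 : Q ^ 8 ≤ 2 * H + 1 := by
    refine le_trans ?_ hQ
    exact Nat.le_mul_of_pos_left _ (by omega)
  have hsub : ((box (d + 1) H).filter fun c => ∀ p : ℕ, p.Prime → p ^ 8 ≤ 2 * H + 1 →
        ¬ (p : ℤ) ∣ it c α n).card ≤
      ((box (d + 1) H).filter fun c => ∀ p : ℕ, p.Prime → p ≤ Q → ¬ (p : ℤ) ∣ it c α n).card := by
    refine Finset.card_le_card fun c hc => ?_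
    rw [Finset.mem_filter] at hc ⊢
    exact ⟨hc.1, fun p hp hpQ => hc.2 p hp (le_trans (Nat.pow_le_pow_left hpQ 8) hQ8)⟩
  have hsub' : (((box (d + 1) H).filter fun c => ∀ p : ℕ, p.Prime → p ^ 8 ≤ 2 * H + 1 →
        ¬ (p : ℤ) ∣ it c α n).card : ℝ) ≤
      (((box (d + 1) H).filter fun c => ∀ p : ℕ, p.Prime → p ≤ Q →
        ¬ (p : ℤ) ∣ it c α n).card : ℝ) := by exact_mod_cast hsub
  refine le_trans hsub' ?_
  set A : ℝ := (((box (d + 1) H).filter fun c => ∀ p : ℕ, p.Prime → p ≤ Q →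
        ¬ (p : ℤ) ∣ it c α n).card : ℝ) with hA
  have hA0 : 0 ≤ A := Nat.cast_nonneg _
  have hH4 : 4 ≤ H := le_trans (by nlinarith) hH
  have hH' : (4 : ℝ) ≤ H := by exact_mod_cast hH4
  have hL : 0 < Real.log H := Real.log_pos (by linarith)
  set t : ℝ := (Real.log H) ^ (-(1 / 3) : ℝ) with ht
  have ht0 : 0 < t := Real.rpow_pos_of_pos hL _
  have ht3 : t ^ 3 * Real.log H = 1 := by
    rw [ht, ← Real.rpow_natCast, ← Real.rpow_mul hL.le]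
    norm_num
    rw [Real.rpow_neg_one]
    exact inv_mul_cancel₀ hL.ne'
  have h3 : 1 ≤ 7 / 2 * (S * t) := by
    by_contra hcon'
    have hcon := not_le.1 hcon'
    have hst : 0 ≤ 7 / 2 * (S * t) := by positivity
    have h4 : (7 / 2 * (S * t)) ^ 3 < 1 := pow_lt_one₀ hst hcon (by norm_num)
    have h6 : t ^ 3 * Real.log H ≤ t ^ 3 * (40 * S ^ 3) :=
      mul_le_mul_of_nonneg_left hlow (by positivity)
    rw [ht3] at h6
    have h7 : 0 ≤ S ^ 3 * t ^ 3 := by positivity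
    have h9 : (7 / 2 * (S * t)) ^ 3 = 343 / 8 * (S ^ 3 * t ^ 3) := by ring
    rw [h9] at h4
    nlinarith
  have h7 : A ≤ 7 / 2 * t * (A * S) := by
    have := mul_le_mul_of_nonneg_left h3 hA0
    nlinarith [this]
  calc A ≤ 7 / 2 * t * (A * S) := h7
    _ ≤ 7 / 2 * t * (2 * (2 * H + 1 : ℝ) ^ (d + 1)) :=
        mul_le_mul_of_nonneg_left hsv (by positivity)
    _ = 7 * t * (2 * H + 1) ^ (d + 1) := by ring
-- END sing

end Pool.Agent.ODy
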