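import Pool.Agent.ODx.Avg
import Pool.Agent.ODy.Siv
import Pool.Agent.ODy.Num

set_option autoImplicit false

namespace Pool.Agent.ODy

open Finset Filter Pool.Agent.ODn Pool.Agent.ODx

-- BEGIN havg2
/-- As `ODx.havg`, with `exa`: the number of `c` with `it c 0 l = 0` for some `l ∈ [1, k]` is at most
`∑_{l ≤ k} p^(d+1)/p` (take the least such `l`). -/
theorem havg2 {d p M L k : ℕ} (hpr : p.Prime) (hM : 1 ≤ M) (hk : 1 ≤ k) (hkd : k ≤ d + 1) :
    ∑ n ∈ Ico M (M + L), gp d n 0 p ≤ L * (k / p) + (L / k + 1) := by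
  have : Fact p.Prime := ⟨hpr⟩
  have hp0 : (0 : ℝ) < p := by exact_mod_cast hpr.pos
  have hP : (0 : ℝ) < (p : ℝ) ^ (d + 1) := by positivity
  have hgp : ∀ n, gp d n 0 p
      = ((univ.filter fun c : Fin (d + 1) → ZMod p => it c 0 n = 0).card : ℝ) / (p : ℝ) ^ (d + 1) := by
    intro n
    unfold gp
    rw [card_rs]
    simp
  have hsum : ∑ n ∈ Ico M (M + L), gp d n 0 p
      = (∑ c : Fin (d + 1) → ZMod p, (((Ico M (M + L)).filter fun n => it c 0 n = 0).card : ℝ))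
        / (p : ℝ) ^ (d + 1) := by
    rw [Finset.sum_congr rfl (fun n _ => hgp n), ← Finset.sum_div]
    congr 1
    simp only [Finset.card_filter, Nat.cast_sum]
    rw [Finset.sum_comm]
  obtain ⟨A, hA⟩ : ∃ A : ℕ → Finset (Fin (d + 1) → ZMod p), ∀ l c,
      c ∈ A l ↔ (it c 0 l = 0 ∧ ∀ j ∈ Ico 1 l, it c 0 j ≠ 0) := by
    classical
    exact ⟨fun l => univ.filter fun c => it c 0 l = 0 ∧ ∀ j ∈ Ico 1 l, it c 0 j ≠ 0,
      fun l c => by simp only [Finset.mem_filter, Finset.mem_univ, true_and]⟩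
  have hAc : ∀ l ∈ Icc 1 k, (A l).card * p ≤ p ^ (d + 1) := by
    intro l hl
    obtain ⟨hl1, hlk⟩ := Finset.mem_Icc.1 hl
    have h3 := exa (K := ZMod p) (d := d) (l := l) hl1 (by omega)
    rw [ZMod.card] at h3
    refine le_trans (Nat.mul_le_mul_right _ (Finset.card_le_card fun c hc => ?_)) h3
    simp only [Finset.mem_filter, Finset.mem_univ, true_and]
    exact (hA l c).1 hc
  obtain ⟨B, hB⟩ : ∃ B, B = (Icc 1 k).biUnion A := ⟨_, rfl⟩
  have hcard : B.card * p ≤ k * p ^ (d + 1) := by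
    have h2 : B.card ≤ ∑ l ∈ Icc 1 k, (A l).card := by
      rw [hB]
      exact Finset.card_biUnion_le
    calc B.card * p ≤ (∑ l ∈ Icc 1 k, (A l).card) * p := Nat.mul_le_mul_right _ h2
      _ = ∑ l ∈ Icc 1 k, (A l).card * p := Finset.sum_mul _ _ _
      _ ≤ ∑ l ∈ Icc 1 k, p ^ (d + 1) := Finset.sum_le_sum hAc
      _ = k * p ^ (d + 1) := by
          rw [Finset.sum_const, Nat.card_Icc, smul_eq_mul, Nat.add_sub_cancel]
  have hno : ∀ c, c ∉ B → ∀ l, 1 ≤ l → l ≤ k → it c 0 l ≠ 0 := by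
    intro c hc l
    induction l using Nat.strong_induction_on with
    | _ l ih =>
      intro hl1 hlk h0
      refine hc ?_
      rw [hB]
      refine Finset.mem_biUnion.2 ⟨l, Finset.mem_Icc.2 ⟨hl1, hlk⟩, (hA l c).2 ⟨h0, fun j hj => ?_⟩⟩
      obtain ⟨hj1, hj2⟩ := Finset.mem_Ico.1 hj
      exact ih j hj2 hj1 (by omega)
  have hpt : ∀ c : Fin (d + 1) → ZMod p,
      (((Ico M (M + L)).filter fun n => it c 0 n = 0).card : ℝ)
        ≤ (if c ∈ B then (L : ℝ) else 0) + (L / k + 1) := by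
    intro c
    have hLk : (0 : ℝ) ≤ (L : ℝ) / k + 1 := by positivity
    by_cases hc : c ∈ B
    · rw [if_pos hc]
      have h1 : ((Ico M (M + L)).filter fun n => it c 0 n = 0).card ≤ L := by
        refine (Finset.card_filter_le _ _).trans ?_
        rw [Nat.card_Ico, Nat.add_sub_cancel_left]
      have h2 : (((Ico M (M + L)).filter fun n => it c 0 n = 0).card : ℝ) ≤ L := by
        exact_mod_cast h1
      linarith
    · rw [if_neg hc, zero_add]
      have h1 := per (ev c) (0 : ZMod p) k M L hk hM (fun l hl1 hlk h0 => hno c hc l hl1 hlk h0)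
      have h2 : (((Ico M (M + L)).filter fun n => it c 0 n = 0).card : ℝ)
          ≤ ((L / k + 1 : ℕ) : ℝ) := by
        exact_mod_cast h1
      refine h2.trans ?_
      push_cast
      have h3 : ((L / k : ℕ) : ℝ) ≤ (L : ℝ) / k := Nat.cast_div_le
      linarith
  have htot : (∑ c : Fin (d + 1) → ZMod p,
        (((Ico M (M + L)).filter fun n => it c 0 n = 0).card : ℝ))
      ≤ L * B.card + (L / k + 1) * (p : ℝ) ^ (d + 1) := by
    refine (Finset.sum_le_sum fun c _ => hpt c).trans ?_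
    rw [Finset.sum_add_distrib, ← Finset.sum_filter, Finset.sum_const, Finset.sum_const,
      Finset.filter_mem_eq_inter, Finset.univ_inter, Finset.card_univ, Fintype.card_fun,
      Fintype.card_fin, ZMod.card, nsmul_eq_mul, nsmul_eq_mul]
    push_cast
    linarith
  have hBR : (B.card : ℝ) ≤ k / p * (p : ℝ) ^ (d + 1) := by
    have h1 : (B.card : ℝ) * p ≤ k * (p : ℝ) ^ (d + 1) := by exact_mod_cast hcard
    rw [div_mul_eq_mul_div, le_div_iff₀ hp0]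
    exact h1
  rw [hsum, div_le_iff₀ hP]
  refine htot.trans ?_
  have hL0 : (0 : ℝ) ≤ L := Nat.cast_nonneg _
  have h5 := mul_le_mul_of_nonneg_left hBR hL0
  calc (L : ℝ) * B.card + (L / k + 1) * (p : ℝ) ^ (d + 1)
      ≤ L * (k / p * (p : ℝ) ^ (d + 1)) + (L / k + 1) * (p : ℝ) ^ (d + 1) := by
        linarith
    _ = (L * (k / p) + (L / k + 1)) * (p : ℝ) ^ (d + 1) := by ring
-- END havg2

-- BEGIN huni
/-- `x = (1/L) ∑_n gp d n 0 p`: `hlog`; `havg2` and `kch2` (`1 ≤ L/p`); `itp`. -/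
theorem huni : ∃ C : ℝ, 0 < C ∧ ∀ d p M L : ℕ, 2 ≤ d → p.Prime → 1 ≤ M → p ≤ L →
    ∑ n ∈ Ico M (M + L), gp d n 0 p ≤ L * (C * (Real.log p) ^ (-(7 / 8) : ℝ)) := by
  obtain ⟨C, hC, h⟩ := itp
  refine ⟨C, hC, fun d p M L hd hp hM hL => ?_⟩
  have hp0 : (0 : ℝ) < p := by exact_mod_cast hp.pos
  have hLr : (p : ℝ) ≤ L := by exact_mod_cast hL
  have hL0 : (0 : ℝ) < L := by linarith
  have hLp : (1 : ℝ) ≤ L / p := by
    rw [le_div_iff₀ hp0, one_mul]
    exact hLr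
  set S : ℝ := ∑ n ∈ Ico M (M + L), gp d n 0 p with hS
  have hS0 : 0 ≤ S := by
    refine Finset.sum_nonneg fun n hn => ?_
    exact le_trans (by positivity) (gp_bd hd (hM.trans (mem_Ico.1 hn).1) hp 0).1
  have h1 : S / L ≤ 24 * Real.log d * (1 / Real.log p) := by
    rw [div_le_iff₀ hL0, mul_comm]
    exact hlog hd hp hM hL
  have h2 : S / L ≤ 1 / d + 4 / Real.sqrt p := by
    obtain ⟨k, hk1, hk2, hk3⟩ := kch2 hd hp
    refine le_trans ?_ hk3
    rw [div_le_iff₀ hL0]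
    refine (havg2 hp hM hk1 hk2).trans ?_
    have h3 : ((k / p : ℝ) + 1 / k + 1 / p) * L = L * (k / p) + (L / k + L / p) := by ring
    rw [h3]
    linarith
  have h4 := h d p (S / L) hd hp.two_le (by positivity) h2 h1
  rw [div_le_iff₀ hL0, mul_comm] at h4
  exact h4
-- END huni

-- BEGIN cmb2
open Classical in
/-- As `ODx.cmb`, with `sieve2`. -/
theorem cmb2 {d n Q H : ℕ} (hd : 2 ≤ d) (hn : 1 ≤ n) (hQ1 : 1 ≤ Q)
    (hQ : 3 * (d + 1) * Q ^ 8 ≤ 2 * H + 1) (α : ℤ) :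
    (((box (d + 1) H).filter fun c => ∀ p : ℕ, p.Prime → p ≤ Q → ¬ (p : ℤ) ∣ it c α n).card : ℝ)
        * Real.log (Q + 1)
      ≤ 4 * (2 * H + 1 : ℝ) ^ (d + 1) * ∑ m ∈ sf Q, ∏ p ∈ m.primeFactors, gp d n 0 p / p := by
  have h4 := harm Q
  have hbd : ∀ p : ℕ, p.Prime → 0 ≤ gp d n 0 p ∧ gp d n 0 p ≤ 1 := by
    intro p hp
    have h5 := gp_bd hd hn hp 0
    have h6 : (0 : ℝ) ≤ 1 / (3 * (p : ℝ)) := by positivity
    exact ⟨by linarith [h5.1], by linarith [h5.2]⟩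
  have h5 := two Q (fun p => gp d n 0 p) hbd
  have h6 := sieve2 (d := d) (n := n) (Q := Q) (H := H) hd hn hQ1 hQ α
  obtain ⟨A, hA⟩ : ∃ A : ℝ, A = (((box (d + 1) H).filter fun c => ∀ p : ℕ, p.Prime → p ≤ Q →
    ¬ (p : ℤ) ∣ it c α n).card : ℝ) := ⟨_, rfl⟩
  have hA0 : 0 ≤ A := by rw [hA]; exact Nat.cast_nonneg _
  rw [← hA] at h6 ⊢
  have h7 : ∑ m ∈ sf Q, ∏ p ∈ m.primeFactors, (1 - gp d n 0 p) / p ≤
      ∑ m ∈ sf Q, HM d n α m := by
    refine Finset.sum_le_sum fun m _ => ?_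
    unfold HM
    refine Finset.prod_le_prod (fun p hp => ?_) fun p hp => ?_
    · have h8 := (hbd p (Nat.prime_of_mem_primeFactors hp)).2
      exact div_nonneg (by linarith) (Nat.cast_nonneg _)
    · exact glp hd hn (Nat.prime_of_mem_primeFactors hp) α
  have hS1 : 0 ≤ ∑ m ∈ sf Q, ∏ p ∈ m.primeFactors, gp d n 0 p / p :=
    Finset.sum_nonneg fun m _ => Finset.prod_nonneg fun p hp =>
      div_nonneg (hbd p (Nat.prime_of_mem_primeFactors hp)).1 (Nat.cast_nonneg _)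
  have h8 := mul_le_mul_of_nonneg_left h7 hS1
  have h9 : Real.log (Q + 1) ≤ 2 * ((∑ m ∈ sf Q, ∏ p ∈ m.primeFactors, gp d n 0 p / p) *
      ∑ m ∈ sf Q, HM d n α m) := by linarith
  have h10 := mul_le_mul_of_nonneg_left h9 hA0
  have h11 := mul_le_mul_of_nonneg_left h6 (mul_nonneg (by norm_num : (0 : ℝ) ≤ 2) hS1)
  refine h10.trans ?_
  calc A * (2 * ((∑ m ∈ sf Q, ∏ p ∈ m.primeFactors, gp d n 0 p / p) * ∑ m ∈ sf Q, HM d n α m))
      = 2 * (∑ m ∈ sf Q, ∏ p ∈ m.primeFactors, gp d n 0 p / p) * (A * ∑ m ∈ sf Q, HM d n α m) := by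
        ring
    _ ≤ _ := h11
    _ = _ := by ring
-- END cmb2

-- BEGIN avga2
open Classical in
/-- As `ODx.avga`: `qch`, `cmb2`, `avgp2`, `huni` (`3(d+1) Q^8 ≤ 2H+1 ≤ L^8` gives `p ≤ Q ≤ L`). -/
theorem avga2 : ∃ C : ℝ, 0 < C ∧ ∀ d H : ℕ, 2 ≤ d → d ^ 2 ≤ H → ∀ (α : ℤ) (M L : ℕ), 1 ≤ M →
    2 * H + 1 ≤ L ^ 8 →
    ∑ n ∈ Ico M (M + L), (((box (d + 1) H).filter fun c => ∀ p : ℕ, p.Prime → p ^ 8 ≤ 2 * H + 1 →
        ¬ (p : ℤ) ∣ it c α n).card : ℝ)
      ≤ L * (C / Real.log H * (2 * H + 1) ^ (d + 1)) := by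
  obtain ⟨C, hC, hav⟩ := avgp2
  obtain ⟨K, hK, hu⟩ := huni
  refine ⟨80 * (1 + C * K), by positivity, ?_⟩
  intro d H hd hH α M L hM hL
  obtain ⟨Q, hQ1, hQ, hQ2⟩ := qch hd hH
  have hQ8 : Q ^ 8 ≤ 2 * H + 1 := le_trans (Nat.le_mul_of_pos_left _ (by positivity)) hQ
  have hQL : Q ≤ L := by
    by_contra hcon
    have h1 : L < Q := not_le.1 hcon
    have h2 : L ^ 8 < Q ^ 8 := Nat.pow_lt_pow_left h1 (by norm_num)
    omega
  have h4H : 4 ≤ H := by nlinarith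
  have hH' : (4 : ℝ) ≤ H := by exact_mod_cast h4H
  have hLH : 0 < Real.log H := Real.log_pos (by linarith)
  have hLQ : 0 ≤ Real.log ((Q : ℝ) + 1) :=
    Real.log_nonneg (by have := Nat.cast_nonneg (α := ℝ) Q; linarith)
  -- the average of the local sums
  have hA := hav K Q (Ico M (M + L)) (fun n p => gp d n 0 p) hK.le
    (by
      intro n hn p hp
      have hn1 : 1 ≤ n := le_trans hM (Finset.mem_Ico.1 hn).1
      obtain ⟨h1, h2⟩ := gp_bd (d := d) (n := n) hd hn1 hp 0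
      exact ⟨le_trans (by positivity) h1, h2⟩)
    (by
      intro p hp hpQ
      rw [Nat.card_Ico, Nat.add_sub_cancel_left]
      exact hu d p M L hd hp hM (hpQ.trans hQL))
  rw [Nat.card_Ico, Nat.add_sub_cancel_left] at hA
  have hterm : ∀ n ∈ Ico M (M + L),
      (((box (d + 1) H).filter fun c => ∀ p : ℕ, p.Prime → p ^ 8 ≤ 2 * H + 1 →
        ¬ (p : ℤ) ∣ it c α n).card : ℝ) * Real.log (Q + 1)
      ≤ 4 * (2 * H + 1 : ℝ) ^ (d + 1) * ∑ m ∈ sf Q, ∏ p ∈ m.primeFactors, gp d n 0 p / p := by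
    intro n hn
    have hn1 : 1 ≤ n := le_trans hM (Finset.mem_Ico.1 hn).1
    have h1 := cmb2 (d := d) (n := n) hd hn1 hQ1 hQ α
    have hsub : ((box (d + 1) H).filter fun c => ∀ p : ℕ, p.Prime → p ^ 8 ≤ 2 * H + 1 →
          ¬ (p : ℤ) ∣ it c α n).card ≤
        ((box (d + 1) H).filter fun c => ∀ p : ℕ, p.Prime → p ≤ Q →
          ¬ (p : ℤ) ∣ it c α n).card := by
      refine Finset.card_le_card fun c hc => ?_
      rw [Finset.mem_filter] at hc ⊢
      exact ⟨hc.1, fun p hp hpQ => hc.2 p hp (le_trans (Nat.pow_le_pow_left hpQ 8) hQ8)⟩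
    have hsub' : (((box (d + 1) H).filter fun c => ∀ p : ℕ, p.Prime → p ^ 8 ≤ 2 * H + 1 →
          ¬ (p : ℤ) ∣ it c α n).card : ℝ) ≤
        (((box (d + 1) H).filter fun c => ∀ p : ℕ, p.Prime → p ≤ Q →
          ¬ (p : ℤ) ∣ it c α n).card : ℝ) := by exact_mod_cast hsub
    exact (mul_le_mul_of_nonneg_right hsub' hLQ).trans h1
  have hS : (∑ n ∈ Ico M (M + L),
      (((box (d + 1) H).filter fun c => ∀ p : ℕ, p.Prime → p ^ 8 ≤ 2 * H + 1 →
        ¬ (p : ℤ) ∣ it c α n).card : ℝ)) * Real.log (Q + 1)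
      ≤ 4 * (2 * H + 1 : ℝ) ^ (d + 1) * (L * (1 + C * K)) := by
    rw [Finset.sum_mul]
    refine (Finset.sum_le_sum hterm).trans ?_
    rw [← Finset.mul_sum]
    exact mul_le_mul_of_nonneg_left hA (by positivity)
  set T : ℝ := ∑ n ∈ Ico M (M + L),
      (((box (d + 1) H).filter fun c => ∀ p : ℕ, p.Prime → p ^ 8 ≤ 2 * H + 1 →
        ¬ (p : ℤ) ∣ it c α n).card : ℝ) with hT
  have hT0 : 0 ≤ T := Finset.sum_nonneg fun n _ => Nat.cast_nonneg _
  have h3 : T * Real.log H ≤ 80 * (2 * H + 1 : ℝ) ^ (d + 1) * (L * (1 + C * K)) := by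
    calc T * Real.log H ≤ T * (20 * Real.log (Q + 1)) := mul_le_mul_of_nonneg_left hQ2 hT0
      _ = 20 * (T * Real.log (Q + 1)) := by ring
      _ ≤ 20 * (4 * (2 * H + 1 : ℝ) ^ (d + 1) * (L * (1 + C * K))) :=
          mul_le_mul_of_nonneg_left hS (by norm_num)
      _ = _ := by ring
  have h4 : T ≤ 80 * (2 * H + 1 : ℝ) ^ (d + 1) * (L * (1 + C * K)) / Real.log H := by
    rw [le_div_iff₀ hLH]
    exact h3
  refine h4.trans (le_of_eq ?_)
  field_simp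
-- END avga2

end Pool.Agent.ODy
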